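import Mathlib

set_option autoImplicit false

open Filter Topology Set Polynomial

namespace Pool.Agent.C74d57

/-- positive part of the cosine -/
noncomputable def ph (x : ℝ) : ℝ := max (Real.cos x) 0

lemma ph_cont : Continuous ph := by unfold ph; fun_prop

lemma ph_periodic (x : ℝ) (m : ℤ) : ph (x + m * (2 * Real.pi)) = ph x := by
  unfold ph
  rw [Real.cos_add_int_mul_two_pi]

lemma dense_fwd (x ε : ℝ) (hε : 0 < ε) (K : ℕ) : ∃ k : ℕ, K ≤ k ∧ ∃ m : ℤ,
    |(k : ℝ) - x + m * (2 * Real.pi)| < ε := by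
  have : Fact (0 < 2 * Real.pi) := ⟨by positivity⟩
  have hirr : Irrational ((1 : ℝ) / (2 * Real.pi)) := by
    rw [one_div]
    apply Irrational.inv
    have := irrational_pi.natCast_mul (m := 2) (by norm_num)
    simpa using this
  have h1 : DenseRange (fun n : ℤ => n • ((1 : ℝ) : AddCircle (2 * Real.pi))) :=
    AddCircle.denseRange_zsmul_coe_iff.mpr hirr
  have h2 : DenseRange (fun n : ℕ => n • ((1 : ℝ) : AddCircle (2 * Real.pi))) :=
    denseRange_zsmul_iff_nsmul.mp h1
  obtain ⟨n, hn⟩ := Metric.denseRange_iff.mp h2 ((x - K : ℝ) : AddCircle (2 * Real.pi)) ε hε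
  refine ⟨K + n, by omega, ?_⟩
  have h3 : n • ((1 : ℝ) : AddCircle (2 * Real.pi)) = ((n : ℝ) : AddCircle (2 * Real.pi)) := by
    rw [← AddCircle.coe_nsmul, nsmul_eq_mul, mul_one]
  rw [h3, dist_eq_norm, ← AddCircle.coe_sub, AddCircle.norm_eq] at hn
  refine ⟨round ((2 * Real.pi)⁻¹ * (x - K - n)), ?_⟩
  rw [← abs_neg]
  convert hn using 2
  push_cast
  ring

/-- the key non-recurrence fact -/
lemma no_rec (N : ℕ) (c : ℕ → ℝ) (K : ℕ)
    (h : ∀ k : ℕ, K ≤ k → ∑ i ∈ Finset.range (N + 1), c i * ph ((k : ℝ) - i) = 0) : c N = 0 := by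
  set Ψ : ℝ → ℝ := fun x => ∑ i ∈ Finset.range (N + 1), c i * ph (x - i) with hΨ
  have hΨc : Continuous Ψ := by
    rw [hΨ]
    refine continuous_finsetSum _ fun i _ => ?_
    exact continuous_const.mul (ph_cont.comp (by fun_prop))
  have hΨp : ∀ (x : ℝ) (m : ℤ), Ψ (x + m * (2 * Real.pi)) = Ψ x := by
    intro x m
    simp only [hΨ]
    refine Finset.sum_congr rfl fun i _ => ?_
    rw [show x + m * (2 * Real.pi) - i = (x - i) + m * (2 * Real.pi) by ring, ph_periodic]
  have h0 : ∀ x, Ψ x = 0 := by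
    intro x
    by_contra hne
    have hev : ∀ᶠ y in 𝓝 x, Ψ y ≠ 0 := hΨc.continuousAt.eventually_ne hne
    obtain ⟨ε, hε, hb⟩ := Metric.eventually_nhds_iff_ball.mp hev
    obtain ⟨k, hk, m, hm⟩ := dense_fwd x ε hε K
    have h1 := hb ((k : ℝ) + m * (2 * Real.pi)) (by
      rw [Metric.mem_ball, Real.dist_eq]
      convert hm using 2
      ring)
    rw [hΨp] at h1
    exact h1 (h k hk)
  by_contra hcN
  -- differentiability of `x ↦ ph (x - N)` at `π/2 + N`
  set x₀ : ℝ := Real.pi / 2 + N with hx₀
  have hd : ∀ i ∈ Finset.range N, DifferentiableAt ℝ (fun x => c i * ph (x - i)) x₀ := by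
    intro i hi
    have hiN := Finset.mem_range.mp hi
    apply DifferentiableAt.const_mul
    have hcos : Real.cos (x₀ - i) ≠ 0 := by
      have e : x₀ - i = ((N - i : ℕ) : ℝ) + Real.pi / 2 := by
        rw [hx₀, Nat.cast_sub hiN.le]; ring
      rw [e, Real.cos_add_pi_div_two]
      intro hs
      have hs' : Real.sin ((N - i : ℕ) : ℝ) = 0 := by linarith
      rw [Real.sin_eq_zero_iff] at hs'
      obtain ⟨n, hn⟩ := hs'
      have hn0 : n ≠ 0 := by
        rintro rfl
        simp at hn
        have : N - i = 0 := by exact_mod_cast hn.symm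
        omega
      have := (irrational_pi.intCast_mul hn0)
      apply this
      exact ⟨((N - i : ℕ) : ℚ), by rw [hn]; simp⟩
    have hcd : DifferentiableAt ℝ (fun x : ℝ => Real.cos (x - i)) x₀ := by fun_prop
    rcases lt_or_gt_of_ne hcos with hneg | hpos
    · have hev : ∀ᶠ x in 𝓝 x₀, Real.cos (x - i) < 0 :=
        (hcd.continuousAt).eventually_lt continuousAt_const hneg
      refine (differentiableAt_const (0 : ℝ)).congr_of_eventuallyEq ?_
      filter_upwards [hev] with x hx
      unfold ph
      exact max_eq_right hx.le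
    · have hev : ∀ᶠ x in 𝓝 x₀, 0 < Real.cos (x - i) :=
        continuousAt_const.eventually_lt (hcd.continuousAt) hpos
      refine hcd.congr_of_eventuallyEq ?_
      filter_upwards [hev] with x hx
      unfold ph
      exact max_eq_left hx.le
  have hsum : DifferentiableAt ℝ (fun x => ∑ i ∈ Finset.range N, c i * ph (x - i)) x₀ := by
    have := DifferentiableAt.fun_sum hd
    exact this
  have hlast : DifferentiableAt ℝ (fun x => ph (x - N)) x₀ := by
    have e : (fun x => ph (x - N)) = fun x => (-(c N)⁻¹) * ∑ i ∈ Finset.range N, c i * ph (x - i) := by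
      funext x
      have := h0 x
      simp only [hΨ] at this
      rw [Finset.sum_range_succ] at this
      have h2 : ∑ i ∈ Finset.range N, c i * ph (x - i) = - (c N * ph (x - N)) := by linarith
      rw [h2]
      field_simp
    rw [e]
    exact hsum.const_mul _
  have hph : ph (x₀ - N) = 0 := by
    unfold ph
    rw [hx₀, add_sub_cancel_right, Real.cos_pi_div_two, max_self]
  have hcos0 : Real.cos (x₀ - N) = 0 := by
    rw [hx₀, add_sub_cancel_right, Real.cos_pi_div_two]
  have m1 : IsLocalMin (fun x => ph (x - N)) x₀ := by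
    refine Eventually.of_forall fun x => ?_
    simp only
    rw [hph]
    exact le_max_right _ _
  have d1 := m1.hasDerivAt_eq_zero hlast.hasDerivAt
  have d2 : HasDerivAt (fun x : ℝ => Real.cos (x - N)) (-1) x₀ := by
    have h9 : HasDerivAt (fun x : ℝ => Real.cos (x - N)) (-Real.sin (x₀ - N) * 1) x₀ :=
      ((hasDerivAt_id' x₀).sub_const (N : ℝ)).cos
    have e : x₀ - (N : ℝ) = Real.pi / 2 := by rw [hx₀]; ring
    rw [e, Real.sin_pi_div_two, mul_one] at h9
    exact h9
  have d3 := hlast.hasDerivAt.sub d2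
  have m2 : IsLocalMin ((fun x => ph (x - N)) - fun x => Real.cos (x - N)) x₀ := by
    refine Eventually.of_forall fun x => ?_
    simp only [Pi.sub_apply]
    rw [hph, hcos0, sub_self]
    exact sub_nonneg.mpr (le_max_left _ _)
  have d4 := m2.hasDerivAt_eq_zero d3
  rw [d1] at d4
  norm_num at d4

/-- `b k = max (2^{-k} cos k) 0` -/
noncomputable def b (k : ℕ) : ℝ := max ((1 / 2 : ℝ) ^ k * Real.cos k) 0

lemma b_eq (k : ℕ) : b k = (1 / 2 : ℝ) ^ k * ph k := by
  unfold b ph
  rw [mul_max_of_nonneg _ _ (by positivity), mul_zero]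

lemma not_rational (P D : ℝ[X]) (hD : D ≠ 0) (h : (D : PowerSeries ℝ) * PowerSeries.mk b = P) : False := by
  have key := no_rec D.natDegree (fun i => D.coeff i * 2 ^ i) (P.natDegree + D.natDegree + 1) (by
    intro k hk
    have h1 := congrArg (PowerSeries.coeff k) h
    rw [PowerSeries.coeff_mul, Polynomial.coeff_coe, Polynomial.coeff_eq_zero_of_natDegree_lt (by omega)] at h1
    rw [Finset.Nat.sum_antidiagonal_eq_sum_range_succ (fun i j => PowerSeries.coeff i (D : PowerSeries ℝ) * PowerSeries.coeff j (PowerSeries.mk b))] at h1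
    simp only [Polynomial.coeff_coe, PowerSeries.coeff_mk] at h1
    have h2 : ∑ i ∈ Finset.range (D.natDegree + 1), D.coeff i * b (k - i) = 0 := by
      rw [← h1]
      apply Finset.sum_subset
      · intro i hi
        rw [Finset.mem_range] at hi ⊢
        omega
      · intro i _ hi
        rw [Finset.mem_range, not_lt] at hi
        rw [Polynomial.coeff_eq_zero_of_natDegree_lt (by omega), zero_mul]
    have h3 : ∑ i ∈ Finset.range (D.natDegree + 1), D.coeff i * 2 ^ i * ph ((k : ℝ) - i)
        = 2 ^ k * ∑ i ∈ Finset.range (D.natDegree + 1), D.coeff i * b (k - i) := by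
      rw [Finset.mul_sum]
      refine Finset.sum_congr rfl fun i hi => ?_
      have hik : i ≤ k := by
        have := Finset.mem_range.mp hi
        omega
      rw [b_eq, Nat.cast_sub hik]
      have : (2 : ℝ) ^ k * (1 / 2) ^ (k - i) = 2 ^ i := by
        conv_lhs => rw [← Nat.sub_add_cancel hik]
        rw [pow_add, Nat.sub_add_cancel hik, one_div, inv_pow]
        field_simp
      calc D.coeff i * 2 ^ i * ph ((k : ℝ) - i)
          = D.coeff i * (2 ^ k * (1 / 2) ^ (k - i)) * ph ((k : ℝ) - i) := by rw [this]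
        _ = _ := by ring
    rw [h3, h2, mul_zero])
  simp only [mul_eq_zero, Polynomial.coeff_natDegree, Polynomial.leadingCoeff_eq_zero, pow_eq_zero_iff', OfNat.ofNat_ne_zero, false_and, or_false] at key
  exact hD key

end Pool.Agent.C74d57
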